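import Pool.Agent.COB.Main

/-!
Boundary regularity of linearised `(Q - 1/2)`-valued Dir-minimisers in codimension one: the
boundary singular set is `H^(m-1)`-null, for all `m = d + 1` and all `Q = k + 1`.
-/

namespace Pool.Agent.Results.MP_71cfa6_an.CodimensionOne

open Pool.Agent.COB MeasureTheory

/-- For all `m = d + 1` and `Q = k + 1`, every Dir-minimising `(Q - 1/2)`-valued pair (values in
`ℝ`) on an open set `Om` of `ℝᵐ` with `C²` interface `(ga, φ)` has a boundary singular set of
`H^(m-1)`-measure zero. -/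
theorem result (d k : ℕ) (Om Op Omi ga : Set (E (d + 1))) (φ : E (d + 1) → ℝ)
    (gp : E (d + 1) → Sym ℝ (k + 1)) (gm : E (d + 1) → Sym ℝ k) (hs : IsSplit Om Op Omi ga)
    (hφ : IsC2On ga φ) (hmin : DirMin Om Op Omi ga φ gp gm) :
    Measure.hausdorffMeasure (d : ℝ) {p | p ∈ ga ∧ ¬ RegPt Op Omi ga gp gm p} = 0 :=
  Pool.Agent.COB.main d k Om Op Omi ga φ gp gm hs hφ hmin

end Pool.Agent.Results.MP_71cfa6_an.CodimensionOne
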