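import Pool.Agent.CAL.Final

/-!
A linearised `(3/2)`-valued Dir-minimiser (`Q = 2`) on a box, with flat interface and `C³`
boundary datum, whose boundary singular set has positive `H^(m-1)`-measure.
-/

namespace Pool.Agent.Results.MP_71cfa6_an.Counterexample

open Pool.Agent.COB (E ContQ)
open Pool.Agent.CAL MeasureTheory

/-- For `Q = 2`, some `m = d + 1` and some `n` there are a domain `Om` in `ℝᵐ`, a `C³` interface
`(ga, φ)` and a Dir-minimising `(Q - 1/2)`-valued function with interface `(ga, φ)` whose boundary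
singular set has positive `H^(m-1)`-measure. -/
theorem result : ∃ (d n : ℕ) (Om Op Omi ga : Set (E (d + 1))) (φ : E (d + 1) → E n)
    (gp : E (d + 1) → Sym (E n) 2) (gm : E (d + 1) → Sym (E n) 1),
    IsSplit Om Op Omi ga ∧ IsConnected Om ∧ IsC3On ga φ ∧
    ContQ (Op ∪ ga) gp ∧ ContQ (Omi ∪ ga) gm ∧ DirMin Om Op Omi ga φ gp gm ∧
    0 < Measure.hausdorffMeasure (d : ℝ) {p | p ∈ ga ∧ ¬ RegPt Op Omi gp gm p} :=
  Pool.Agent.CAL.main

end Pool.Agent.Results.MP_71cfa6_an.Counterexample
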