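import Pool.Agent.DMB.Main

/-!
Boundary regularity of linearised `(Q - 1/2)`-valued Dir-minimisers in the plane: the boundary
singular set is `H¹`-null.  (`Q = k + 1`; the plane is `ℂ`.)
-/

namespace Pool.Agent.Results.MP_71cfa6_an.PlanarBoundary

open Pool.Agent.DMB MeasureTheory

/-- For all `n` and `Q = k + 1`, every Dir-minimising `(Q - 1/2)`-valued pair on an open set `Om`
of the plane with `C³` interface `(ga, φ)` has an `H¹`-null boundary singular set. -/
theorem result (n k : ℕ) (Om Op Omi ga : Set ℂ) (φ : ℂ → E n) (gp : ℂ → AQ n (k + 1))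
    (gm : ℂ → AQ n k) (hs : IsSplit Om Op Omi ga) (hφ : IsC3On ga φ)
    (hmin : DirMin Om Op Omi ga φ gp gm) :
    Measure.hausdorffMeasure 1 {p | p ∈ ga ∧ ¬ RegPt Op Omi ga gp gm p} = 0 :=
  Pool.Agent.DMB.main n k Om Op Omi ga φ gp gm hs hφ hmin

end Pool.Agent.Results.MP_71cfa6_an.PlanarBoundary
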